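import Pool.Agent.STP.Defs

/-!
# Few formulas lack the three properties (after STS/Rn3.lean)
-/

set_option autoImplicit false

namespace Pool.Agent.STP

open Finset Pool.Agent.STH Pool.Agent.STD Pool.Agent.STS

theorem thm_Bad (hO : Pool.Agent.STH.St_One) (hG : Pool.Agent.STD.St_Grd) (hT : St_Tri) :
    St_Bad := by
  classical
  intro Δ θ τ k p hΔ hθ hθ' hτ hτ1 hp hk hpk hpk4
  have hpk5 : (p : ℝ) ^ 4 * (1 - τ) ^ k ≤ 1 := by
    refine le_trans ?_ hpk4
    apply mul_le_mul_of_nonneg_left _ (by positivity)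
    exact pow_le_pow_left₀ (by linarith) (by linarith) k
  obtain ⟨n₀, hn₀⟩ := hO Δ θ τ k p hΔ hθ hθ' hτ hp hk hpk
  obtain ⟨n₁, hn₁⟩ := hG Δ τ k p hΔ (by linarith) hτ hτ1 hp hk hpk5
  obtain ⟨n₂, hn₂⟩ := hT Δ (τ / 33) k p hΔ (by linarith) (by linarith) (by linarith) hp hk hpk4
  refine ⟨max (max n₀ n₁) (max (max n₂ ⌈1056 / τ⌉₊) 2), fun n hn a d M ha hd hdn hM => ?_⟩
  have hn0 : n₀ ≤ n := ((le_max_left _ _).trans (le_max_left _ _)).trans hn
  have hn0' : n₁ ≤ n := ((le_max_right _ _).trans (le_max_left _ _)).trans hn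
  have hnr : max (max n₂ ⌈1056 / τ⌉₊) 2 ≤ n := (le_max_right _ _).trans hn
  have hn0'' : n₂ ≤ n := ((le_max_left _ _).trans (le_max_left _ _)).trans hnr
  have hnc : ⌈1056 / τ⌉₊ ≤ n := ((le_max_right _ _).trans (le_max_left _ _)).trans hnr
  have hn2 : 2 ≤ n := (le_max_right _ _).trans hnr
  have hτn : 1056 ≤ τ * n := by
    have h1 : 1056 / τ ≤ (n : ℝ) := (Nat.le_ceil _).trans (by exact_mod_cast hnc)
    have h2 := (div_le_iff₀ hτ).1 h1
    linarith
  have hd32 : τ / 33 * n ≤ ((d / 32 : ℕ) : ℝ) := by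
    have h1 : d < 32 * (d / 32) + 32 := by omega
    have h2 : (d : ℝ) < 32 * ((d / 32 : ℕ) : ℝ) + 32 := by exact_mod_cast h1
    linarith
  have hn1 : 1 ≤ n := by omega
  have hnR2 : (2 : ℝ) ≤ n := by exact_mod_cast hn2
  have hnR : (1 : ℝ) ≤ n := by exact_mod_cast hn1
  obtain ⟨W, hW⟩ : ∃ W : ℝ, W = (2 * (n : ℝ)) ^ (k * M) := ⟨_, rfl⟩
  have hWpos : 0 < W := by rw [hW]; positivity
  -- the bad formulas
  obtain ⟨Bd, hBd⟩ : ∃ Bd : Finset (Fm n k M), Bd = univ.filter fun ω =>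
    ¬ PropQ (Mod ω) a d (Real.exp (-(3 / 2 * Δ * n))) := ⟨_, rfl⟩
  obtain ⟨I, hI⟩ : ∃ I : Finset (Finset (Fin n) × Pt n × Pt n), I = univ.filter fun q =>
    a ≤ q.1.card ∧ d ≤ dOff q.1 q.2.1 q.2.2 := ⟨_, rfl⟩
  have hBad : (Bd.card : ℝ) ≤ 8 ^ n * (W * Real.exp (-(4 * n))) := by
    have h1 : Bd ⊆ I.biUnion fun q => univ.filter fun ω : Fm n k M =>
        2 ^ q.1.card * Real.exp (-(3 / 2 * Δ * n)) <
        ((Nat.card {z : Pt n // Off q.1 q.2.1 z ∧ Mod ω z ∧ Mod ω (mix q.1 z q.2.2)} : ℕ) : ℝ) := by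
      intro ω hω
      rw [hBd, Finset.mem_filter] at hω
      have h2 := hω.2
      unfold PropQ at h2
      push Not at h2
      obtain ⟨R, hR, x, x', hx, h3⟩ := h2
      rw [Finset.mem_biUnion]
      refine ⟨(R, x, x'), ?_, ?_⟩
      · rw [hI, Finset.mem_filter]
        exact ⟨Finset.mem_univ _, hR, hx⟩
      · rw [Finset.mem_filter]
        exact ⟨Finset.mem_univ _, h3⟩
    have h2 : (Bd.card : ℝ) ≤ ∑ q ∈ I, (((univ.filter fun ω : Fm n k M =>
        2 ^ q.1.card * Real.exp (-(3 / 2 * Δ * n)) <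
        ((Nat.card {z : Pt n // Off q.1 q.2.1 z ∧ Mod ω z ∧ Mod ω (mix q.1 z q.2.2)} : ℕ) :
          ℝ)).card : ℕ) : ℝ) := by
      have h3 := (Finset.card_le_card h1).trans Finset.card_biUnion_le
      exact_mod_cast h3
    have h3 : ∀ q ∈ I, (((univ.filter fun ω : Fm n k M =>
        2 ^ q.1.card * Real.exp (-(3 / 2 * Δ * n)) <
        ((Nat.card {z : Pt n // Off q.1 q.2.1 z ∧ Mod ω z ∧ Mod ω (mix q.1 z q.2.2)} : ℕ) :
          ℝ)).card : ℕ) : ℝ) ≤ W * Real.exp (-(4 * n)) := by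
      intro q hq
      rw [hI, Finset.mem_filter] at hq
      have h4 := hn₀ n hn0 a d M ha hd hM q.1 hq.2.1 q.2.1 q.2.2 hq.2.2
      rw [Nat.card_eq_fintype_card, Fintype.card_subtype, ← hW] at h4
      exact h4
    have h5 := h2.trans (Finset.sum_le_sum h3)
    rw [Finset.sum_const, nsmul_eq_mul] at h5
    refine h5.trans ?_
    apply mul_le_mul_of_nonneg_right _ (by positivity)
    have h6 : I.card ≤ Fintype.card (Finset (Fin n) × Pt n × Pt n) := Finset.card_le_univ _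
    have h7 : Fintype.card (Finset (Fin n) × Pt n × Pt n) = 8 ^ n := by
      rw [Fintype.card_prod, Fintype.card_prod, Fintype.card_finset, Fintype.card_fun,
        Fintype.card_bool, Fintype.card_fin, ← mul_pow, ← mul_pow]
      norm_num
    rw [h7] at h6
    exact_mod_cast h6
  -- the formulas with a grid
  obtain ⟨Ge, hGe⟩ : ∃ Ge : Finset (Fm n k M), Ge = univ.filter fun ω =>
    ¬ NoGrid (Mod ω) p d := ⟨_, rfl⟩
  have hGrid : (Ge.card : ℝ) ≤ W * Real.exp (-(4 * n)) := by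
    have h1 := hn₁ n hn0' d M hd hdn hM
    rw [Nat.card_eq_fintype_card, Fintype.card_subtype, ← hW] at h1
    rw [hGe]
    exact h1
  -- the formulas with generated models
  obtain ⟨Te, hTe⟩ : ∃ Te : Finset (Fm n k M), Te = univ.filter fun ω =>
    ¬ NoTri (Mod ω) p (d / 32) := ⟨_, rfl⟩
  have hTri : (Te.card : ℝ) ≤ W * Real.exp (-(4 * n)) := by
    have h1 := hn₂ n hn0'' (d / 32) M hd32 ((Nat.div_le_self _ _).trans hdn) hM
    rw [Nat.card_eq_fintype_card, Fintype.card_subtype, ← hW] at h1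
    rw [hTe]
    exact h1
  -- comparison
  have h38 : (((Bd ∪ Ge) ∪ Te).card : ℝ) ≤ W * Real.exp (-(n : ℝ)) := by
    have h1 : (((Bd ∪ Ge) ∪ Te).card : ℝ) ≤ ((Bd.card + Ge.card + Te.card : ℕ) : ℝ) := by
      exact_mod_cast (Finset.card_union_le _ _).trans
        (Nat.add_le_add_right (Finset.card_union_le _ _) _)
    refine h1.trans ?_
    rw [Nat.cast_add, Nat.cast_add]
    refine (add_le_add (add_le_add hBad hGrid) hTri).trans ?_
    have e8 : (8 : ℝ) ≤ Real.exp (5 / 2) := by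
      have h2 : (2.7182818283 : ℝ) < Real.exp 1 := Real.exp_one_gt_d9
      have h3 : Real.exp (5 / 2) ^ 2 = Real.exp 1 ^ 5 := by
        rw [← Real.exp_nat_mul, ← Real.exp_nat_mul]
        norm_num
      have h4 : (2.7 : ℝ) ^ 5 ≤ Real.exp 1 ^ 5 :=
        pow_le_pow_left₀ (by norm_num) (by linarith) 5
      have h5 : 0 ≤ Real.exp (5 / 2) := (Real.exp_pos _).le
      by_contra hc
      push Not at hc
      have h6 : Real.exp (5 / 2) ^ 2 < 8 ^ 2 := by
        apply pow_lt_pow_left₀ hc h5 (by norm_num)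
      rw [h3] at h6
      norm_num at h4 h6
      linarith
    have h2 : (8 : ℝ) ^ n ≤ Real.exp (5 / 2 * n) := by
      calc (8 : ℝ) ^ n ≤ Real.exp (5 / 2) ^ n := pow_le_pow_left₀ (by norm_num) e8 n
        _ = Real.exp (5 / 2 * n) := by
          rw [← Real.exp_nat_mul]
          congr 1
          ring
    have h3 : (8 : ℝ) ^ n * Real.exp (-(4 * n)) ≤ Real.exp (5 / 2 * n) * Real.exp (-(4 * n)) :=
      mul_le_mul_of_nonneg_right h2 (Real.exp_pos _).le
    rw [← Real.exp_add] at h3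
    have h4 : (3 : ℝ) * Real.exp (5 / 2 * n + -(4 * n)) ≤ Real.exp (-(n : ℝ)) := by
      have h5 : (3 : ℝ) ≤ Real.exp (3 / 2) := by
        have h6 := Real.quadratic_le_exp_of_nonneg (show (0 : ℝ) ≤ 3 / 2 by norm_num)
        norm_num at h6
        linarith
      have h6 : (3 : ℝ) ≤ Real.exp (1 / 2 * n) := by
        refine h5.trans (Real.exp_le_exp.2 ?_)
        have : (1056 : ℝ) ≤ n := by
          have h7 : τ * n ≤ 1 * n := mul_le_mul_of_nonneg_right hτ1 (by linarith)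
          linarith
        linarith
      calc (3 : ℝ) * Real.exp (5 / 2 * n + -(4 * n)) ≤
            Real.exp (1 / 2 * n) * Real.exp (5 / 2 * n + -(4 * n)) :=
            mul_le_mul_of_nonneg_right h6 (Real.exp_pos _).le
        _ = Real.exp (-(n : ℝ)) := by
            rw [← Real.exp_add]
            congr 1
            ring
    calc (8 : ℝ) ^ n * (W * Real.exp (-(4 * n))) + W * Real.exp (-(4 * n)) +
          W * Real.exp (-(4 * n))
        ≤ (8 : ℝ) ^ n * (W * Real.exp (-(4 * n))) + (8 : ℝ) ^ n * (W * Real.exp (-(4 * n))) +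
          (8 : ℝ) ^ n * (W * Real.exp (-(4 * n))) := by
          have h8 : (1 : ℝ) ≤ 8 ^ n := one_le_pow₀ (by norm_num)
          have h9 : 0 ≤ W * Real.exp (-(4 * n)) := by positivity
          have := mul_le_mul_of_nonneg_right h8 h9
          linarith
      _ = W * (3 * ((8 : ℝ) ^ n * Real.exp (-(4 * n)))) := by ring
      _ ≤ W * Real.exp (-(n : ℝ)) := by
          apply mul_le_mul_of_nonneg_left _ hWpos.le
          linarith
  rw [← hW]
  refine le_trans ?_ h38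
  rw [Nat.card_eq_fintype_card, Fintype.card_subtype]
  have hsub : (univ.filter fun ω : Fm n k M =>
      ¬ (PropQ (Mod ω) a d (Real.exp (-(3 / 2 * Δ * n))) ∧
      NoGrid (Mod ω) p d ∧ NoTri (Mod ω) p (d / 32))) ⊆ (Bd ∪ Ge) ∪ Te := by
    intro ω hω
    rw [Finset.mem_filter] at hω
    rw [Finset.mem_union, Finset.mem_union, hBd, hGe, hTe, Finset.mem_filter, Finset.mem_filter,
      Finset.mem_filter]
    by_cases h1 : PropQ (Mod ω) a d (Real.exp (-(3 / 2 * Δ * n)))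
    · by_cases h2 : NoGrid (Mod ω) p d
      · exact Or.inr ⟨Finset.mem_univ _, fun h3 => hω.2 ⟨h1, h2, h3⟩⟩
      · exact Or.inl (Or.inr ⟨Finset.mem_univ _, h2⟩)
    · exact Or.inl (Or.inl ⟨Finset.mem_univ _, h1⟩)
  exact_mod_cast Finset.card_le_card hsub

end Pool.Agent.STP
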