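import Pool.Agent.STP.Defs

/-!
# Counting pairs of a formula and a model
-/

set_option autoImplicit false

namespace Pool.Agent.STP

open Finset Pool.Agent.STH Pool.Agent.STD Pool.Agent.STS

/-- the number of clauses which are false at `x` -/
private lemma Cnt_false {n k : ℕ} (x : Pt n) :
    Fintype.card {c : Fin k → Fin n × Bool // ∀ j, ¬ x (c j).1 = (c j).2} = n ^ k := by
  classical
  have e : {c : Fin k → Fin n × Bool // ∀ j, ¬ x (c j).1 = (c j).2} ≃ (Fin k → Fin n) :=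
    { toFun := fun c j => (c.1 j).1
      invFun := fun f => ⟨fun j => (f j, !x (f j)), fun j => by
        show ¬ x (f j) = !x (f j)
        cases x (f j) <;> simp⟩
      left_inv := fun c => by
        apply Subtype.ext
        funext j
        show ((c.1 j).1, !x (c.1 j).1) = c.1 j
        have h := c.2 j
        apply Prod.ext
        · rfl
        · show (!x (c.1 j).1) = (c.1 j).2
          revert h
          cases x (c.1 j).1 <;> cases (c.1 j).2 <;> simp
      right_inv := fun f => rfl }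
  rw [Fintype.card_congr e, Fintype.card_fun, Fintype.card_fin, Fintype.card_fin]

private lemma Cnt_true {n k : ℕ} (x : Pt n) :
    ((Fintype.card {c : Fin k → Fin n × Bool // ∃ j, x (c j).1 = (c j).2} : ℕ) : ℝ) =
      (2 * (n : ℝ)) ^ k - (n : ℝ) ^ k := by
  classical
  have h1 := Fintype.card_subtype_compl (fun c : Fin k → Fin n × Bool => ∃ j, x (c j).1 = (c j).2)
  have h2 : Fintype.card {c : Fin k → Fin n × Bool // ¬ ∃ j, x (c j).1 = (c j).2} = n ^ k := by
    rw [← Cnt_false (k := k) x]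
    exact Fintype.card_congr (Equiv.subtypeEquivRight fun c => by push Not; rfl)
  have h3 : Fintype.card {c : Fin k → Fin n × Bool // ∃ j, x (c j).1 = (c j).2} ≤
      Fintype.card (Fin k → Fin n × Bool) := Fintype.card_subtype_le _
  rw [h2] at h1
  have h4 : Fintype.card (Fin k → Fin n × Bool) = (n * 2) ^ k := by
    rw [Fintype.card_fun, Fintype.card_prod, Fintype.card_fin, Fintype.card_bool, Fintype.card_fin]
  rw [h4] at h1 h3
  have h5 : ((n ^ k : ℕ) : ℝ) = ((n * 2) ^ k : ℕ) -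
      (Fintype.card {c : Fin k → Fin n × Bool // ∃ j, x (c j).1 = (c j).2} : ℕ) := by
    rw [h1, Nat.cast_sub h3]
  push_cast at h5
  rw [mul_comm (2 : ℝ)]
  linarith

private lemma Cnt_mod {n k M : ℕ} (x : Pt n) :
    ((Nat.card {ω : Fm n k M // Mod ω x} : ℕ) : ℝ) =
      ((2 * (n : ℝ)) ^ k - (n : ℝ) ^ k) ^ M := by
  classical
  have e : {ω : Fm n k M // Mod ω x} ≃
      (Fin M → {c : Fin k → Fin n × Bool // ∃ j, x (c j).1 = (c j).2}) :=
    Equiv.subtypePiEquivPi (β := fun _ : Fin M => Fin k → Fin n × Bool)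
      (p := fun _ (c : Fin k → Fin n × Bool) => ∃ j, x (c j).1 = (c j).2)
  rw [Nat.card_congr e, Nat.card_eq_fintype_card, Fintype.card_fun, Fintype.card_fin,
    Nat.cast_pow, Cnt_true]

private lemma Cnt_total {n k M : ℕ} : ((Fintype.card (Fm n k M) : ℕ) : ℝ) =
    (2 * (n : ℝ)) ^ (k * M) := by
  rw [Fintype.card_fun, Fintype.card_fun, Fintype.card_prod, Fintype.card_fin, Fintype.card_bool,
    Fintype.card_fin, Fintype.card_fin, pow_mul]
  push_cast
  rw [mul_comm (2 : ℝ)]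

/-- sums over the first component -/
private lemma Cnt_fst {n k M : ℕ} (q : Fm n k M → Prop) :
    ((Nat.card {p : Fm n k M × Pt n // Mod p.1 p.2 ∧ q p.1} : ℕ) : ℝ) =
      ∑ ω : Fm n k M, @ite ℝ (q ω) (Classical.propDecidable _)
        ((Nat.card {x // Mod ω x} : ℕ) : ℝ) 0 := by
  classical
  have h1 : ∀ ω : Fm n k M, @ite ℝ (q ω) (Classical.propDecidable _)
      ((Nat.card {x // Mod ω x} : ℕ) : ℝ) 0 =
      ∑ x : Pt n, if Mod ω x ∧ q ω then (1 : ℝ) else 0 := by
    intro ω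
    by_cases hq : q ω
    · simp only [hq, if_true, and_true]
      rw [Nat.card_eq_fintype_card, Fintype.card_subtype, Finset.card_filter]
      push_cast
      rfl
    · simp [hq]
  rw [Finset.sum_congr rfl fun ω _ => h1 ω, Nat.card_eq_fintype_card, Fintype.card_subtype,
    Finset.card_filter]
  push_cast
  rw [← Finset.univ_product_univ, Finset.sum_product]

theorem thm_Tot : St_Tot := by
  classical
  intro n k M
  have h0 : ((Nat.card {p : Fm n k M × Pt n // Mod p.1 p.2} : ℕ) : ℝ) =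
      ∑ x : Pt n, ((Nat.card {ω : Fm n k M // Mod ω x} : ℕ) : ℝ) := by
    have h2 : ∀ x : Pt n, ((Nat.card {ω : Fm n k M // Mod ω x} : ℕ) : ℝ) =
        ∑ ω : Fm n k M, if Mod ω x then (1 : ℝ) else 0 := by
      intro x
      rw [Nat.card_eq_fintype_card, Fintype.card_subtype, Finset.card_filter]
      push_cast
      rfl
    rw [Finset.sum_congr rfl fun x _ => h2 x, Finset.sum_comm, Nat.card_eq_fintype_card,
      Fintype.card_subtype, Finset.card_filter]
    push_cast
    rw [← Finset.univ_product_univ, Finset.sum_product]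
  rw [h0, Finset.sum_congr rfl fun x _ => Cnt_mod x, Finset.sum_const, Finset.card_univ,
    nsmul_eq_mul]
  congr 1
  rw [Fintype.card_fun, Fintype.card_bool, Fintype.card_fin]
  push_cast
  rfl

theorem thm_Few : St_Few := by
  classical
  intro n k M δ hδ
  have h1 : ((Nat.card {p : Fm n k M × Pt n // Mod p.1 p.2} : ℕ) : ℝ) =
      (2 * (n : ℝ)) ^ (k * M) * (2 ^ n * (1 - (1 / 2) ^ k) ^ M) := by
    rw [thm_Tot]
    have e1 : ((2 * (n : ℝ)) ^ k - (n : ℝ) ^ k) ^ M =
        (2 * (n : ℝ)) ^ (k * M) * (1 - (1 / 2) ^ k) ^ M := by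
      rw [pow_mul, ← mul_pow]
      congr 1
      rw [mul_sub, mul_one, ← mul_pow]
      congr 2
      ring
    rw [e1]
    ring
  rw [h1, Cnt_fst (fun ω => ((Nat.card {x // Mod ω x} : ℕ) : ℝ) <
    δ * (2 ^ n * (1 - (1 / 2) ^ k) ^ M))]
  have hy1 : ((1 : ℝ) / 2) ^ k ≤ 1 := pow_le_one₀ (by norm_num) (by norm_num)
  have hT : 0 ≤ δ * (2 ^ n * (1 - (1 / 2 : ℝ) ^ k) ^ M) := by
    have : (0 : ℝ) ≤ 1 - (1 / 2) ^ k := by linarith
    positivity
  calc ∑ ω : Fm n k M, @ite ℝ (((Nat.card {x // Mod ω x} : ℕ) : ℝ) <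
        δ * (2 ^ n * (1 - (1 / 2) ^ k) ^ M)) (Classical.propDecidable _)
        ((Nat.card {x // Mod ω x} : ℕ) : ℝ) 0
      ≤ ∑ _ω : Fm n k M, δ * (2 ^ n * (1 - (1 / 2 : ℝ) ^ k) ^ M) := by
        apply Finset.sum_le_sum
        intro ω _
        split_ifs with h
        · exact h.le
        · exact hT
    _ = δ * ((2 * (n : ℝ)) ^ (k * M) * (2 ^ n * (1 - (1 / 2) ^ k) ^ M)) := by
        rw [Finset.sum_const, Finset.card_univ, nsmul_eq_mul, Cnt_total]
        ring

theorem thm_Ext : St_Ext := by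
  classical
  intro n k M₀ M' E
  -- inject into `Σ x, {ω₀ // E ω₀} × {ω' // Mod ω' x}`
  have hinj : Nat.card {p : Fm n k (M₀ + M') × Pt n // Mod p.1 p.2 ∧
      E fun i => p.1 (Fin.castAdd M' i)} ≤
      Nat.card (Σ x : Pt n, {ω : Fm n k M₀ // E ω} × {ω : Fm n k M' // Mod ω x}) := by
    apply Nat.card_le_card_of_injective (fun p => ⟨p.1.2,
      (⟨fun i => p.1.1 (Fin.castAdd M' i), p.2.2⟩,
        ⟨fun i => p.1.1 (Fin.natAdd M₀ i), fun i => p.2.1 (Fin.natAdd M₀ i)⟩)⟩)
    rintro ⟨⟨ω, x⟩, h⟩ ⟨⟨ω', x'⟩, h'⟩ heq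
    rw [Sigma.mk.inj_iff] at heq
    obtain ⟨h1, h2⟩ := heq
    dsimp only at h1
    subst h1
    have h3 := eq_of_heq h2
    rw [Prod.mk.injEq] at h3
    obtain ⟨h4, h5⟩ := h3
    have h6 := congrArg Subtype.val h4
    have h7 := congrArg Subtype.val h5
    dsimp only at h6 h7
    apply Subtype.ext
    apply Prod.ext
    · funext i
      refine Fin.addCases (fun j => ?_) (fun j => ?_) i
      · exact congrFun h6 j
      · exact congrFun h7 j
    · rfl
  have h2 : ((Nat.card (Σ x : Pt n, {ω : Fm n k M₀ // E ω} × {ω : Fm n k M' // Mod ω x}) : ℕ) : ℝ)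
      = 2 ^ n * ((Nat.card {ω : Fm n k M₀ // E ω} : ℕ) : ℝ) *
        ((2 * (n : ℝ)) ^ k - (n : ℝ) ^ k) ^ M' := by
    rw [Nat.card_sigma]
    push_cast
    have h3 : ∀ x : Pt n, ((Nat.card ({ω : Fm n k M₀ // E ω} × {ω : Fm n k M' // Mod ω x}) : ℕ) : ℝ)
        = ((Nat.card {ω : Fm n k M₀ // E ω} : ℕ) : ℝ) *
          ((2 * (n : ℝ)) ^ k - (n : ℝ) ^ k) ^ M' := by
      intro x
      rw [Nat.card_prod]
      push_cast
      rw [Cnt_mod]
    rw [Finset.sum_congr rfl fun x _ => h3 x, Finset.sum_const, Finset.card_univ, nsmul_eq_mul,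
      Fintype.card_fun, Fintype.card_bool, Fintype.card_fin]
    push_cast
    ring
  rw [← h2]
  exact_mod_cast hinj

end Pool.Agent.STP
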