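import Pool.Agent.STS.Defs

/-!
# Planted random formulas of all densities: statements of the modules
-/

set_option autoImplicit false

namespace Pool.Agent.STP

open Finset Pool.Agent.STH Pool.Agent.STD Pool.Agent.STS

/-- [Bad] few formulas lack the properties. -/
def St_Bad : Prop := ∀ (Δ θ τ : ℝ) (k p : ℕ), 0 < Δ → 16 * Δ ≤ θ → θ ≤ 1 / 8 → 0 < τ → τ ≤ 1 →
  10 ≤ Δ * p → 2 ≤ k → 4 * (p : ℝ) ^ 2 * (1 - min τ (θ / 20)) ^ k ≤ 1 →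
  (p : ℝ) ^ 4 * (1 - τ / 33) ^ k ≤ 1 →
  ∃ n₀ : ℕ, ∀ n : ℕ, n₀ ≤ n → ∀ (a d M : ℕ), θ * n ≤ a → τ * n ≤ d → d ≤ n →
    M = ⌊Δ * n * 2 ^ k⌋₊ →
    ((Nat.card {ω : Fm n k M // ¬ (PropQ (Mod ω) a d (Real.exp (-(3 / 2 * Δ * n))) ∧
      NoGrid (Mod ω) p d ∧ NoTri (Mod ω) p (d / 32))} : ℕ) : ℝ) ≤
      (2 * (n : ℝ)) ^ (k * M) * Real.exp (-(n : ℝ))

/-- [Tot] the number of pairs of a formula and a model. -/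
def St_Tot : Prop := ∀ n k M : ℕ,
  ((Nat.card {p : Fm n k M × Pt n // Mod p.1 p.2} : ℕ) : ℝ) =
    2 ^ n * ((2 * (n : ℝ)) ^ k - (n : ℝ) ^ k) ^ M

/-- [Few] few pairs belong to formulas with few models. -/
def St_Few : Prop := ∀ (n k M : ℕ) (δ : ℝ), 0 ≤ δ →
  ((Nat.card {p : Fm n k M × Pt n // Mod p.1 p.2 ∧
    ((Nat.card {x // Mod p.1 x} : ℕ) : ℝ) < δ * (2 ^ n * (1 - (1 / 2) ^ k) ^ M)} : ℕ) : ℝ) ≤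
    δ * ((Nat.card {p : Fm n k M × Pt n // Mod p.1 p.2} : ℕ) : ℝ)

/-- [Ext] pairs for which a property depends on the first clauses. -/
def St_Ext : Prop := ∀ (n k M₀ M' : ℕ) (E : Fm n k M₀ → Prop),
  ((Nat.card {p : Fm n k (M₀ + M') × Pt n // Mod p.1 p.2 ∧
    E fun i => p.1 (Fin.castAdd M' i)} : ℕ) : ℝ) ≤
    2 ^ n * ((Nat.card {ω : Fm n k M₀ // E ω} : ℕ) : ℝ) *
      ((2 * (n : ℝ)) ^ k - (n : ℝ) ^ k) ^ M'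

/-- the bound for programs -/
def Prg {n k M : ℕ} (ω : Fm n k M) (e L : ℝ) : Prop :=
  ∀ (K : Type) [Field K] (s m : ℕ) (P : SProgram K n s m) (r : Fin s),
    (1 - (2 : ℝ) ^ (-(e * n))) * ((Nat.card {x : Fin n → Bool // Mod ω x} : ℕ) : ℝ) ≤
      ((Nat.card {x : Fin n → Bool // Mod ω x ∧ P.val r x ≠ 1 ∨ ¬ Mod ω x ∧ P.val r x ≠ 0} : ℕ) : ℝ)
        + L * (s * 2 ^ m)

/-- [Pln] planted formulas are good. -/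
def St_Pln : Prop := ∃ C D : ℝ, 0 < D ∧ ∀ k : ℕ, 2 ≤ k → ∃ n₀ : ℕ, ∀ n : ℕ, n₀ ≤ n →
  ∀ e : ℝ, e = Real.log k ^ 2 / k → ∀ M : ℕ, ⌊D * e * n * 2 ^ k⌋₊ ≤ M →
  ((Nat.card {p : Fm n k M × Pt n // Mod p.1 p.2 ∧ ¬
    ((2 : ℝ) ^ (-(2 * e * n)) * (2 ^ n * (1 - (1 / 2) ^ k) ^ M) ≤
      ((Nat.card {x // Mod p.1 x} : ℕ) : ℝ) ∧
    (∃ S : ℕ, 1 ≤ S ∧ 8 * (S : ℝ) ^ 5 ≤ (2 : ℝ) ^ (C * e * n) ∧ Dense (Mod p.1) S ∧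
      ThinCl (Mod p.1) S ∧ AffDense (Mod p.1) S) ∧
    (M = ⌊D * e * n * 2 ^ k⌋₊ → Prg p.1 e ((2 : ℝ) ^ (C * e * n))))} : ℕ) : ℝ) ≤
    (2 : ℝ) ^ (-(e * n)) * ((Nat.card {p : Fm n k M × Pt n // Mod p.1 p.2} : ℕ) : ℝ)

end Pool.Agent.STP
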