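import Pool.Agent.STP.Par

/-!
# Random formulas: all but few are good
-/

set_option autoImplicit false

namespace Pool.Agent.STP

open Finset Pool.Agent.STH Pool.Agent.STD Pool.Agent.STS

/-- the properties of a set which make it hard -/
def Gd {n : ℕ} (F : Pt n → Prop) (L : ℝ) : Prop :=
  ∃ S : ℕ, 1 ≤ S ∧ 8 * (S : ℝ) ^ 5 ≤ L ∧ Dense F S ∧ ThinCl F S ∧ AffDense F S

/-- [Cor] All but few formulas with `M = ⌊25 e n 2 ^ k⌋` clauses are good. -/
def St_Cor : Prop := ∀ k : ℕ, 2 ≤ k → ∃ n₀ : ℕ, ∀ n : ℕ, n₀ ≤ n →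
  ∀ e : ℝ, e = Real.log k ^ 2 / k → ∀ M : ℕ, M = ⌊25 * e * n * 2 ^ k⌋₊ →
  ∃ E : Fm n k M → Prop,
    ((Nat.card {ω // E ω} : ℕ) : ℝ) ≤ (2 * (n : ℝ)) ^ (k * M) * Real.exp (-(n : ℝ)) ∧
    ((Nat.card {ω // E ω} : ℕ) : ℝ) ≤
      (2 * (n : ℝ)) ^ (k * M) * (Real.exp (-(30 * e * n)) * ((2 : ℝ) ^ (-(e * n)) / 2)) ∧
    ∀ ω, ¬ E ω → Gd (Mod ω) ((2 : ℝ) ^ (25600 * e * n)) ∧
      ((2 : ℝ) ^ (-(3 / 2 * e * n)) * (2 ^ n * (1 - (1 / 2) ^ k) ^ M) ≤
        ((Nat.card {x // Mod ω x} : ℕ) : ℝ) → Prg ω e ((2 : ℝ) ^ (25600 * e * n)))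

/-- the number of points of the cube -/
theorem Cor_cube (n : ℕ) (q : Pt n → Prop) : ((Nat.card {x // q x} : ℕ) : ℝ) ≤ 2 ^ n := by
  have h1 : Nat.card {x : Pt n // q x} ≤ Nat.card (Pt n) :=
    Nat.card_le_card_of_injective _ Subtype.val_injective
  have h2 : Nat.card (Pt n) = 2 ^ n := by simp
  rw [h2] at h1
  exact_mod_cast h1

theorem Cor_card (n : ℕ) (X : Finset (Pt n)) : X.card ≤ 2 ^ n := by
  have h := card_le_univ X
  rwa [Fintype.card_fun, Fintype.card_bool, Fintype.card_fin] at h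

/-- everything is good for trivial parameters -/
theorem Cor_triv (n : ℕ) (e : ℝ) (hl1 : 1 ≤ 3200 * e) (hn1 : 1 ≤ n) {k M : ℕ}
    (ω : Fm n k M) : Gd (Mod ω) ((2 : ℝ) ^ (25600 * e * n)) ∧
      Prg ω e ((2 : ℝ) ^ (25600 * e * n)) := by
  have hn1R : (1 : ℝ) ≤ n := by exact_mod_cast hn1
  have hC : (2 : ℝ) ^ (8 * n) ≤ (2 : ℝ) ^ (25600 * e * n) := by
    rw [← Real.rpow_natCast]
    apply Real.rpow_le_rpow_of_exponent_le (by norm_num)
    push_cast
    have h1 := mul_le_mul_of_nonneg_right hl1 (show (0 : ℝ) ≤ n by linarith)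
    linarith
  have hC1 : (2 : ℝ) ^ n ≤ (2 : ℝ) ^ (25600 * e * n) :=
    (pow_le_pow_right₀ (by norm_num) (by omega)).trans hC
  refine ⟨⟨2 ^ n, Nat.one_le_two_pow, ?_, ?_, ?_, ?_⟩, ?_⟩
  · refine le_trans ?_ hC
    push_cast
    rw [← pow_mul]
    calc (8 : ℝ) * 2 ^ (n * 5) = 2 ^ (n * 5 + 3) := by rw [pow_add]; ring
      _ ≤ 2 ^ (8 * n) := pow_le_pow_right₀ (by norm_num) (by omega)
  · intro W T _ hW _
    exact absurd (hW.trans_le (Cor_card n _)) (lt_irrefl _)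
  · intro t _ X _ _
    exact Cor_card n X
  · intro X _ hX
    exact absurd (hX.trans_le (Cor_card n X)) (lt_irrefl _)
  · intro K _ s m P v
    have hs1 : (1 : ℝ) ≤ s := by
      have : 1 ≤ s := lt_of_le_of_lt (Nat.zero_le _) v.isLt
      exact_mod_cast this
    have hm1 : (1 : ℝ) ≤ 2 ^ m := one_le_pow₀ (by norm_num)
    have hN := Cor_cube n (Mod ω)
    have hN0 : (0 : ℝ) ≤ ((Nat.card {x : Fin n → Bool // Mod ω x} : ℕ) : ℝ) := by positivity
    have h11 : (0 : ℝ) ≤ (2 : ℝ) ^ (-(e * n)) := (Real.rpow_pos_of_pos (by norm_num) _).le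
    have h12 : (0 : ℝ) ≤ ((Nat.card {x : Fin n → Bool // Mod ω x ∧ P.val v x ≠ 1 ∨
      ¬ Mod ω x ∧ P.val v x ≠ 0} : ℕ) : ℝ) := by positivity
    have h13 : (2 : ℝ) ^ (25600 * e * n) ≤ (2 : ℝ) ^ (25600 * e * n) * (s * 2 ^ m) :=
      le_mul_of_one_le_right (Real.rpow_pos_of_pos (by norm_num) _).le
        (one_le_mul_of_one_le_of_one_le hs1 hm1)
    have h14 := mul_nonneg h11 hN0
    linarith

/-- the volume of the balls -/
theorem Cor_bal (h2 : STH.St_Bal) (l : ℝ) (hl0 : 0 < l) (hl1 : l < 1) (n d : ℕ)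
    (hd : d = ⌈l / 8 / (3 * Real.log (4 / (l / 8))) * n⌉₊) :
    BallLe n d (Real.exp ((7 / 12) * (l / 8) * n) * (32 / l)) := by
  have h32' : 4 / (l / 8) = 32 / l := by
    field_simp
    norm_num
  intro x
  rw [Par_ball]
  refine (h2 n univ d (l / 32) (by positivity) (by linarith) x).trans ?_
  rw [Finset.card_univ, Fintype.card_fin]
  have e1 : (1 + l / 32) ^ n ≤ Real.exp (l / 32 * n) := by
    have h := Real.add_one_le_exp (l / 32)
    calc (1 + l / 32) ^ n ≤ (Real.exp (l / 32)) ^ n :=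
          pow_le_pow_left₀ (by positivity) (by linarith) n
      _ = _ := by
          rw [← Real.exp_nat_mul]
          congr 1
          ring
  have hlogpos : 0 < Real.log (32 / l) := by
    apply Real.log_pos
    rw [lt_div_iff₀ hl0]; linarith
  have e2 : (1 / (l / 32)) ^ d ≤ Real.exp (l / 24 * n) * (32 / l) := by
    have h1 : 1 / (l / 32) = 32 / l := by
      field_simp
    rw [h1]
    have h2' : (32 / l) ^ d = Real.exp (Real.log (32 / l) * d) := by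
      rw [Real.exp_mul, Real.exp_log (by positivity), Real.rpow_natCast]
    rw [h2']
    have hd1 : (d : ℝ) ≤ l / 8 / (3 * Real.log (32 / l)) * n + 1 := by
      rw [hd, h32']
      exact (Nat.ceil_lt_add_one (by positivity)).le
    calc Real.exp (Real.log (32 / l) * d)
        ≤ Real.exp (Real.log (32 / l) * (l / 8 / (3 * Real.log (32 / l)) * n + 1)) :=
          Real.exp_le_exp.mpr (mul_le_mul_of_nonneg_left hd1 hlogpos.le)
      _ = Real.exp (l / 24 * n + Real.log (32 / l)) := by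
          congr 1
          field_simp
          ring
      _ = _ := by rw [Real.exp_add, Real.exp_log (by positivity)]
  calc (1 + l / 32) ^ n * (1 / (l / 32)) ^ d
      ≤ Real.exp (l / 32 * n) * (Real.exp (l / 24 * n) * (32 / l)) :=
        mul_le_mul e1 e2 (by positivity) (by positivity)
    _ = _ := by
        rw [← mul_assoc, ← Real.exp_add]
        congr 2
        ring

/-- many models: the exponents -/
theorem Cor_mod (n k M : ℕ) (e N : ℝ) (hk : 2 ≤ k) (he0 : 0 < e)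
    (hM : M = ⌊25 * e * n * 2 ^ k⌋₊)
    (hω : (2 : ℝ) ^ (-(3 / 2 * e * n)) * (2 ^ n * (1 - (1 / 2) ^ k) ^ M) ≤ N) :
    2 ^ n * Real.exp (-(5 / 4 * (3200 * e / 128) * n)) / 2 ≤ N := by
  have hlog2' : Real.log 2 < 0.6931471808 := Real.log_two_lt_d9
  refine le_trans ?_ hω
  have hen : 0 ≤ e * n := by positivity
  have h19 := Par_den k M n (25 * e) hk (by positivity) hM
  have h20 : Real.exp (-(5 / 4 * (3200 * e / 128) * n)) ≤
      (2 : ℝ) ^ (-(3 / 2 * e * n)) * (1 - (1 / 2) ^ k) ^ M := by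
    refine le_trans ?_ (mul_le_mul_of_nonneg_left h19 (Real.rpow_pos_of_pos (by norm_num) _).le)
    rw [Real.rpow_def_of_pos (by norm_num), ← Real.exp_add]
    apply Real.exp_le_exp.mpr
    have h21 := mul_le_mul_of_nonneg_right hlog2'.le hen
    linarith
  have h22 : (0 : ℝ) < 2 ^ n := by positivity
  have h23 := mul_le_mul_of_nonneg_left h20 h22.le
  have h24 : 0 ≤ 2 ^ n * Real.exp (-(5 / 4 * (3200 * e / 128) * n)) := by positivity
  have h25 : (2 : ℝ) ^ (-(3 / 2 * e * n)) * (2 ^ n * (1 - (1 / 2) ^ k) ^ M) =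
      2 ^ n * ((2 : ℝ) ^ (-(3 / 2 * e * n)) * (1 - (1 / 2) ^ k) ^ M) := by
    ring
  rw [h25]
  linarith

/-- few bad formulas: the exponents -/
theorem Cor_exp (n : ℕ) (e : ℝ) (hl1 : 3200 * e < 1) (hen : 3 ≤ e * n) :
    Real.exp (-(n : ℝ)) ≤ Real.exp (-(30 * e * n)) * ((2 : ℝ) ^ (-(e * n)) / 2) := by
  have hlog2' : Real.log 2 < 0.6931471808 := Real.log_two_lt_d9
  have hlog2 : 0.6931471803 < Real.log 2 := Real.log_two_gt_d9
  have h1 : Real.exp (-(30 * e * n)) * ((2 : ℝ) ^ (-(e * n)) / 2) =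
      Real.exp (-(30 * e * n) + (Real.log 2 * -(e * n) - Real.log 2)) := by
    rw [Real.exp_add, Real.exp_sub, Real.exp_log (by norm_num), Real.rpow_def_of_pos (by norm_num)]
  rw [h1]
  apply Real.exp_le_exp.2
  have h2 : 3200 * e * n ≤ 1 * n := mul_le_mul_of_nonneg_right hl1.le (by positivity)
  have h3 := mul_le_mul_of_nonneg_right hlog2'.le (show (0 : ℝ) ≤ e * n by linarith)
  linarith

/-- [Cor] -/
theorem thm_Cor (h1 : St_SumL) (h2 : STH.St_Bal) (h3 : St_Bad) (h4 : STD.St_Den)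
    (h5 : St_Scl) (h6 : St_Afd) : St_Cor := by
  intro k hk
  have hk0 : (2 : ℝ) ≤ k := by exact_mod_cast hk
  have hk0' : (0 : ℝ) < k := by linarith
  have hlog2 : 0.6931471803 < Real.log 2 := Real.log_two_gt_d9
  have hlogk : Real.log 2 ≤ Real.log k := Real.log_le_log (by norm_num) hk0
  have hlk : 0 < Real.log k := by linarith
  obtain ⟨e, he⟩ : ∃ e : ℝ, e = Real.log k ^ 2 / k := ⟨_, rfl⟩
  have he0 : 0 < e := by rw [he]; positivity
  obtain ⟨l, hl'⟩ : ∃ l : ℝ, l = 3200 * e := ⟨_, rfl⟩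
  have hl : l = 3200 * Real.log k ^ 2 / k := by rw [hl', he]; ring
  have hl0 : 0 < l := by rw [hl']; positivity
  rcases le_or_gt 1 l with hl1 | hl1
  · -- the trivial case
    refine ⟨1, fun n hn e' he' M _ => ⟨fun _ => False, ?_, ?_, fun ω _ => ?_⟩⟩
    · have h0 : Nat.card {ω : Fm n k M // False} = 0 := by simp
      rw [h0, Nat.cast_zero]
      positivity
    · have h0 : Nat.card {ω : Fm n k M // False} = 0 := by simp
      rw [h0, Nat.cast_zero]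
      positivity
    · rw [he', ← he]
      have h := Cor_triv n e (by linarith) hn ω
      exact ⟨h.1, fun _ => h.2⟩
  obtain ⟨p, hp⟩ : ∃ p : ℕ, p = ⌈1280 / l⌉₊ := ⟨_, rfl⟩
  have hp1 : (p : ℝ) ≤ 1281 / l := by
    have h := (Nat.ceil_lt_add_one (show (0 : ℝ) ≤ 1280 / l by positivity)).le
    have h1 : (1 : ℝ) ≤ 1 / l := by rw [le_div_iff₀ hl0]; linarith
    have h2 : (1281 : ℝ) / l = 1280 / l + 1 / l := by ring
    rw [hp]
    linarith
  have hp2 : 1280 / l ≤ (p : ℝ) := by rw [hp]; exact Nat.le_ceil _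
  have hp3 : 1 ≤ p := by
    have : (1 : ℝ) ≤ p := by
      refine le_trans ?_ hp2
      rw [le_div_iff₀ hl0]; linarith
    exact_mod_cast this
  have hτ0 : 0 < l / 8 / (3 * Real.log (4 / (l / 8))) := by
    have h1 : (1 : ℝ) < 4 / (l / 8) := by
      rw [lt_div_iff₀ (by positivity)]; linarith
    have := Real.log_pos h1
    positivity
  obtain ⟨hk1, hk2, hk3⟩ := Par_k k hk l hl hl1 p hp1
  obtain ⟨n₂, hn₂⟩ := h3 (l / 128) (l / 8) (l / 8 / (3 * Real.log (4 / (l / 8)))) k p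
    (by positivity) (by linarith) (by linarith) hτ0 hk3
    (by
      rw [div_le_iff₀ hl0] at hp2
      linarith) hk hk1 hk2
  obtain ⟨n₃, hn₃⟩ := exists_nat_ge (10000 / l)
  obtain ⟨n₆, hn₆⟩ := exists_nat_ge ((4 : ℝ) ^ (p + 1) / (l / 8 / (3 * Real.log (4 / (l / 8)))))
  have h32 : (1 : ℝ) ≤ 32 / l := by rw [le_div_iff₀ hl0]; linarith
  obtain ⟨n₄, hn₄⟩ := Par_ar l (32 * (32 / l) * (1 + 2 * (8 ^ (p + 1) * p * (32 / l))) + 1) hl0
    (by
      have : (0 : ℝ) ≤ 32 * (32 / l) * (1 + 2 * (8 ^ (p + 1) * p * (32 / l))) := by positivity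
      linarith)
  obtain ⟨n₅, hn₅⟩ := Par_ar l (8 * (2 * (8 ^ (p + 1) * p * (32 / l))) ^ 5 + 1) hl0
    (by
      have : (0 : ℝ) ≤ 8 * (2 * (8 ^ (p + 1) * p * (32 / l))) ^ 5 := by positivity
      linarith)
  refine ⟨n₂ + n₃ + n₄ + n₅ + n₆, ?_⟩
  intro n hn e' he' M hM
  obtain rfl : e' = e := by rw [he', he]
  have hnn₂ : n₂ ≤ n := by omega
  have hnn₃ : n₃ ≤ n := by omega
  have hnn₄ : n₄ ≤ n := by omega
  have hnn₅ : n₅ ≤ n := by omega
  have hnn₆ : n₆ ≤ n := by omega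
  have hn0 : (0 : ℝ) ≤ n := by positivity
  have hln : 10000 ≤ l * n := by
    have hnR : 10000 / l ≤ n := hn₃.trans (by exact_mod_cast hnn₃)
    rw [div_le_iff₀ hl0] at hnR
    linarith
  have hlnn : l * n ≤ n := mul_le_of_le_one_left hn0 hl1.le
  have hen : 3 ≤ e' * n := by
    rw [hl'] at hln
    linarith
  obtain ⟨a, ha⟩ : ∃ a : ℕ, a = ⌈l / 8 * n⌉₊ := ⟨_, rfl⟩
  obtain ⟨d, hd⟩ : ∃ d : ℕ, d = ⌈l / 8 / (3 * Real.log (4 / (l / 8))) * n⌉₊ := ⟨_, rfl⟩
  have hdn : d ≤ n := by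
    rw [hd]
    apply Nat.ceil_le.mpr
    exact mul_le_of_le_one_left hn0 hk3
  have hMl : M = ⌊l / 128 * n * 2 ^ k⌋₊ := by
    rw [hM]
    congr 1
    rw [hl']
    ring
  have hbad := hn₂ n hnn₂ a d M (by rw [ha]; exact Nat.le_ceil _) (by rw [hd]; exact Nat.le_ceil _)
    hdn hMl
  -- the ball
  obtain ⟨B, hB⟩ : ∃ B : ℝ, B = Real.exp ((7 / 12) * (l / 8) * n) * (32 / l) := ⟨_, rfl⟩
  have hB1 : 1 ≤ B := by
    rw [hB]
    exact one_le_mul_of_one_le_of_one_le (Real.one_le_exp (by positivity)) h32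
  have hbal : BallLe n d B := by
    rw [hB]
    exact Cor_bal h2 l hl0 hl1 n d hd
  -- the boxes
  obtain ⟨T, hT⟩ : ∃ T : ℕ, T = ⌈8 ^ (p + 1) * p * B⌉₊ := ⟨_, rfl⟩
  have e1 : (1 : ℝ) ≤ 8 ^ (p + 1) * p :=
    one_le_mul_of_one_le_of_one_le (one_le_pow₀ (by norm_num)) (by exact_mod_cast hp3)
  have hpB : (1 : ℝ) ≤ 8 ^ (p + 1) * p * B := one_le_mul_of_one_le_of_one_le e1 hB1
  have hT1 : 8 ^ (p + 1) * p * B ≤ (T : ℝ) := by rw [hT]; exact Nat.le_ceil _
  have hT2 : (T : ℝ) ≤ 2 * (8 ^ (p + 1) * p * B) := by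
    have := (Nat.ceil_lt_add_one (show (0 : ℝ) ≤ 8 ^ (p + 1) * p * B by linarith)).le
    rw [hT]
    linarith
  have hT3 : 1 ≤ T := by
    have : (1 : ℝ) ≤ T := hpB.trans hT1
    exact_mod_cast this
  have hBT : B ≤ (T : ℝ) := (le_mul_of_one_le_left (by linarith) e1).trans hT1
  have h4d : 4 ^ (p + 1) ≤ d := by
    have e1 : (4 : ℝ) ^ (p + 1) / (l / 8 / (3 * Real.log (4 / (l / 8)))) ≤ n :=
      hn₆.trans (by exact_mod_cast hnn₆)
    have e2 : (4 : ℝ) ^ (p + 1) ≤ l / 8 / (3 * Real.log (4 / (l / 8))) * n := by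
      rw [div_le_iff₀ hτ0] at e1
      linarith
    have e3 : ((4 ^ (p + 1) : ℕ) : ℝ) ≤ d := by
      push_cast
      rw [hd]
      exact e2.trans (Nat.le_ceil _)
    exact_mod_cast e3
  have hlC : (2 : ℝ) ^ (l * n) ≤ (2 : ℝ) ^ (25600 * e' * n) := by
    apply Real.rpow_le_rpow_of_exponent_le (by norm_num)
    rw [hl']
    linarith
  refine ⟨fun ω => ¬ (PropQ (Mod ω) a d (Real.exp (-(3 / 2 * (l / 128) * n))) ∧
    NoGrid (Mod ω) p d ∧ NoTri (Mod ω) p (d / 32)), hbad, ?_, ?_⟩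
  · refine hbad.trans (mul_le_mul_of_nonneg_left ?_ (by positivity))
    exact Cor_exp n e' (by rw [← hl']; exact hl1) hen
  · intro ω hω
    rw [not_not] at hω
    obtain ⟨hω2, hω3, hω4⟩ := hω
    have hdenS : Dense (Mod ω) T := h4 n p d _ B T hp3 hB1 hω3 hbal hT1
    have hthin : ThinCl (Mod ω) T := h5 n p (d / 32) d _ B T hbal hω4 (Nat.mul_div_le d 32) h4d hBT
    have haff : AffDense (Mod ω) T :=
      h6 n p (d / 32) d _ B T hp3 hB1 (Nat.div_le_self d 32) hbal hω4 hT1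
    refine ⟨⟨T, hT3, (Par_b l hl0 n T p B hB hT2).trans ((hn₅ n hnn₅).trans hlC), hdenS, hthin,
      haff⟩, fun hω1 K _ s m P v => ?_⟩
    have hs : 1 ≤ s := lt_of_le_of_lt (Nat.zero_le _) v.isLt
    have hN : 2 ^ n * Real.exp (-(5 / 4 * (l / 128) * n)) / 2 ≤
        ((Nat.card {x : Fin n → Bool // Mod ω x} : ℕ) : ℝ) := by
      rw [hl']
      exact Cor_mod n k M e' _ hk he0 hM hω1
    obtain ⟨E, hE⟩ : ∃ E : ℕ, E = ⌊4 * (l / 8) * n⌋₊ := ⟨_, rfl⟩
    have haE : 2 * a ≤ E := by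
      rw [hE]
      apply Nat.le_floor
      push_cast
      have h := (Nat.ceil_lt_add_one (show (0 : ℝ) ≤ l / 8 * n by positivity)).le
      rw [ha]
      linarith
    have hEn : E ≤ n := by
      rw [hE]
      have h1 : 4 * (l / 8) * n ≤ n := by linarith
      calc ⌊4 * (l / 8) * n⌋₊ ≤ ⌊(n : ℝ)⌋₊ := Nat.floor_le_floor h1
        _ = n := Nat.floor_natCast _
    have hEr : (E : ℝ) ≤ 4 * (l / 8) * n := by rw [hE]; exact Nat.floor_le (by positivity)
    have hsum := h1 K n s m P v (Mod ω) a d E T (Real.exp (-(3 / 2 * (l / 128) * n))) B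
      (Real.exp_pos _).le hB1 haE hEn hω2 hbal haff
    have h9' := Par_p l e' hl0 hl' n s m T p hs (by linarith) _ _ E B hEr hB hT2 hN hsum
    have h10 := mul_le_mul_of_nonneg_right ((hn₄ n hnn₄).trans hlC)
      (show (0 : ℝ) ≤ s * 2 ^ m by positivity)
    linarith

end Pool.Agent.STP
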