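import Pool.Agent.STP.Defs

/-!
# Planted random formulas: the arithmetic of the parameters
-/

set_option autoImplicit false

namespace Pool.Agent.STP

open Finset Pool.Agent.STH Pool.Agent.STD Pool.Agent.STS

theorem Par_ball {n d : ℕ} (x : Pt n) :
    Nat.card {x' : Pt n // dist x x' < d} =
      Nat.card {x' : Pt n // Off (univ : Finset (Fin n)) x x' ∧ dist x x' < d} := by
  apply Nat.card_congr
  apply Equiv.subtypeEquivRight
  intro x'
  constructor
  · intro h
    exact ⟨fun i hi => absurd (mem_univ i) hi, h⟩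
  · intro h
    exact h.2

/-- real arithmetic of the parameters -/
theorem Par_k (k : ℕ) (hk : 2 ≤ k) (l : ℝ) (hl : l = 3200 * Real.log k ^ 2 / k)
    (hl1 : l < 1) (p : ℕ) (hp : (p : ℝ) ≤ 1281 / l) :
    4 * (p : ℝ) ^ 2 * (1 - min (l / 8 / (3 * Real.log (4 / (l / 8)))) ((l / 8) / 20)) ^ k ≤ 1 ∧
    (p : ℝ) ^ 4 * (1 - l / 8 / (3 * Real.log (4 / (l / 8))) / 33) ^ k ≤ 1 ∧
    l / 8 / (3 * Real.log (4 / (l / 8))) ≤ 1 := by
  have hk0 : (2 : ℝ) ≤ k := by exact_mod_cast hk
  have hk0' : (0 : ℝ) < k := by linarith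
  have hlog2 : 0.6931471803 < Real.log 2 := Real.log_two_gt_d9
  have hlogk : Real.log 2 ≤ Real.log k := Real.log_le_log (by norm_num) hk0
  have hlk : 0 < Real.log k := by linarith
  have hl0 : 0 < l := by rw [hl]; positivity
  -- `32 / l ≤ k`
  have hlk' : l * k = 3200 * Real.log k ^ 2 := by
    rw [hl, div_mul_cancel₀ _ hk0'.ne']
  have hlk1 : 1281 ≤ l * k := by
    rw [hlk']
    nlinarith
  have h32 : 32 / l ≤ k := by
    rw [div_le_iff₀ hl0]
    linarith
  have h32' : 4 / (l / 8) = 32 / l := by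
    field_simp
    norm_num
  have hL : Real.log (32 / l) ≤ Real.log k := Real.log_le_log (by positivity) h32
  have hL1 : 1 ≤ Real.log (32 / l) := by
    have h1 : (4 : ℝ) ≤ 32 / l := by
      rw [le_div_iff₀ hl0]; linarith
    have h2 : Real.log 4 ≤ Real.log (32 / l) := Real.log_le_log (by norm_num) h1
    have h3 : Real.log 4 = 2 * Real.log 2 := by
      rw [show (4 : ℝ) = 2 ^ 2 by norm_num, Real.log_pow]
      norm_num
    linarith
  have hp0 : (0 : ℝ) ≤ p := by positivity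
  have hpk : (p : ℝ) ≤ k := by
    refine hp.trans ?_
    rw [div_le_iff₀ hl0]
    linarith
  have hτ1 : l / 8 / (3 * Real.log (4 / (l / 8))) ≤ 1 := by
    rw [h32', div_le_one (by positivity)]
    linarith
  -- powers
  have hpow : ∀ (m c : ℝ) (j : ℕ), m ≤ 1 → c = (j : ℝ) * Real.log k → c ≤ m * k →
      (1 - m) ^ k ≤ 1 / (k : ℝ) ^ j := by
    intro m c j hm1 hc hcm
    have h1 : 1 - m ≤ Real.exp (-m) := by
      have := Real.add_one_le_exp (-m)
      linarith
    calc (1 - m) ^ k ≤ (Real.exp (-m)) ^ k := pow_le_pow_left₀ (by linarith) h1 k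
      _ = Real.exp (-(m * k)) := by
          rw [← Real.exp_nat_mul]
          congr 1
          ring
      _ ≤ Real.exp (-c) := Real.exp_le_exp.mpr (by linarith)
      _ = 1 / (k : ℝ) ^ j := by
          rw [Real.exp_neg, one_div, hc, Real.exp_nat_mul, Real.exp_log hk0']
  refine ⟨?_, ?_, hτ1⟩
  · set m : ℝ := min (l / 8 / (3 * Real.log (4 / (l / 8)))) ((l / 8) / 20) with hm
    have hm0 : l / (160 * Real.log k) ≤ m := by
      rw [hm, h32']
      apply le_min
      · rw [div_div, div_le_div_iff₀ (by positivity) (by positivity)]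
        nlinarith
      · rw [div_div, div_le_div_iff₀ (by positivity) (by positivity)]
        nlinarith
    have hmk : 20 * Real.log k ≤ m * k := by
      have h1 : l / (160 * Real.log k) * k ≤ m * k := mul_le_mul_of_nonneg_right hm0 hk0'.le
      have h2 : l / (160 * Real.log k) * k = 20 * Real.log k := by
        rw [hl]
        field_simp
        norm_num
      linarith
    have hm1 : m ≤ 1 := by
      have : m ≤ l / 8 / 20 := min_le_right _ _
      linarith
    have h := hpow m (20 * Real.log k) 20 hm1 (by norm_num) hmk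
    have hp3 : 4 * (p : ℝ) ^ 2 ≤ 4 * (k : ℝ) ^ 2 := by
      have : (p : ℝ) ^ 2 ≤ (k : ℝ) ^ 2 := pow_le_pow_left₀ hp0 hpk 2
      linarith
    have hk18 : (4 : ℝ) ≤ (k : ℝ) ^ 18 := by
      calc (4 : ℝ) ≤ 2 ^ 18 := by norm_num
        _ ≤ (k : ℝ) ^ 18 := pow_le_pow_left₀ (by norm_num) hk0 18
    calc 4 * (p : ℝ) ^ 2 * (1 - m) ^ k ≤ (4 * (k : ℝ) ^ 2) * (1 / (k : ℝ) ^ 20) := by
          apply mul_le_mul hp3 h _ (by positivity)
          exact pow_nonneg (by linarith) _
      _ ≤ ((k : ℝ) ^ 18 * (k : ℝ) ^ 2) * (1 / (k : ℝ) ^ 20) := by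
          apply mul_le_mul_of_nonneg_right _ (by positivity)
          exact mul_le_mul_of_nonneg_right hk18 (by positivity)
      _ = 1 := by
          field_simp
  · set m : ℝ := l / 8 / (3 * Real.log (4 / (l / 8))) / 33 with hm
    have hτ0 : 0 ≤ l / 8 / (3 * Real.log (4 / (l / 8))) := by
      rw [h32']
      positivity
    have hm1 : m ≤ 1 := by
      rw [hm]
      linarith
    have hm0 : l / (792 * Real.log k) ≤ m := by
      rw [hm, h32', div_div, div_div, div_le_div_iff₀ (by positivity) (by positivity)]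
      nlinarith
    have hmk : 4 * Real.log k ≤ m * k := by
      have h1 : l / (792 * Real.log k) * k ≤ m * k := mul_le_mul_of_nonneg_right hm0 hk0'.le
      have h2 : l / (792 * Real.log k) * k = 3200 / 792 * Real.log k := by
        rw [hl]
        field_simp
      rw [h2] at h1
      nlinarith
    have h := hpow m (4 * Real.log k) 4 hm1 (by norm_num) hmk
    have hp4 : (p : ℝ) ^ 4 ≤ (k : ℝ) ^ 4 := pow_le_pow_left₀ hp0 hpk 4
    calc (p : ℝ) ^ 4 * (1 - m) ^ k ≤ (k : ℝ) ^ 4 * (1 / (k : ℝ) ^ 4) := by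
          apply mul_le_mul hp4 h _ (by positivity)
          exact pow_nonneg (by linarith) _
      _ = 1 := by
          field_simp

/-- the final arithmetic -/
theorem Par_ar (l A : ℝ) (hl0 : 0 < l) (hA : 1 ≤ A) : ∃ n₁ : ℕ, ∀ n : ℕ, n₁ ≤ n →
    A * Real.exp (43 / 100 * l * n) ≤ (2 : ℝ) ^ (l * n) := by
  obtain ⟨n₁, hn₁⟩ := exists_nat_ge (Real.log A * 1000 / l)
  refine ⟨n₁, fun n hn => ?_⟩
  have hnR : Real.log A * 1000 / l ≤ n := hn₁.trans (by exact_mod_cast hn)
  have hln : Real.log A * 1000 ≤ l * n := by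
    rw [div_le_iff₀ hl0] at hnR
    linarith
  have hlog : 0 ≤ Real.log A := Real.log_nonneg hA
  have hlog2 : 0.6931471803 < Real.log 2 := Real.log_two_gt_d9
  have hln0 : (0 : ℝ) ≤ l * n := by nlinarith
  rw [Real.rpow_def_of_pos (by norm_num)]
  calc A * Real.exp (43 / 100 * l * n) = Real.exp (Real.log A + 43 / 100 * l * n) := by
        rw [Real.exp_add, Real.exp_log (by linarith)]
    _ ≤ _ := Real.exp_le_exp.mpr (by nlinarith)

/-- the arithmetic for programs -/
theorem Par_p (l e : ℝ) (hl0 : 0 < l) (hle : l = 3200 * e)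
    (n s m T p : ℕ) (hs : 1 ≤ s) (hln : 3000 ≤ l * n)
    (N W : ℝ) (E : ℕ) (B : ℝ) (hE : (E : ℝ) ≤ 4 * (l / 8) * n)
    (hB : B = Real.exp ((7 / 12) * (l / 8) * n) * (32 / l))
    (hT : (T : ℝ) ≤ 2 * (8 ^ (p + 1) * p * B))
    (hN : 2 ^ n * Real.exp (-(5 / 4 * (l / 128) * n)) / 2 ≤ N)
    (h : N ≤ W + 2 * 2 ^ n * Real.exp (-(3 / 2 * (l / 128) * n)) +
      8 * B * (2 ^ E + T * 2 ^ m) * (3 * s + 1)) :
    (1 - (2 : ℝ) ^ (-(e * n))) * N ≤ W +
      (32 * (32 / l) * (1 + 2 * (8 ^ (p + 1) * p * (32 / l))) + 1) *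
        Real.exp (43 / 100 * l * n) * (s * 2 ^ m) := by
  have hlog2 : 0.6931471803 < Real.log 2 := Real.log_two_gt_d9
  have hlog2' : Real.log 2 < 0.6931471808 := Real.log_two_lt_d9
  have hs1 : (1 : ℝ) ≤ s := by exact_mod_cast hs
  have hm1 : (1 : ℝ) ≤ 2 ^ m := one_le_pow₀ (by norm_num)
  have h2E : (2 : ℝ) ^ E ≤ Real.exp (Real.log 2 * (l / 2 * n)) := by
    have : (2 : ℝ) ^ E = Real.exp (Real.log 2 * E) := by
      rw [Real.exp_mul, Real.exp_log (by norm_num), Real.rpow_natCast]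
    rw [this]
    apply Real.exp_le_exp.mpr
    apply mul_le_mul_of_nonneg_left _ (by linarith)
    linarith
  -- the additive term
  have hadd : 2 * 2 ^ n * Real.exp (-(3 / 2 * (l / 128) * n)) ≤ (2 : ℝ) ^ (-(e * n)) * N := by
    have h1 : (2 : ℝ) ^ (-(e * n)) * (2 ^ n * Real.exp (-(5 / 4 * (l / 128) * n)) / 2) ≤
        (2 : ℝ) ^ (-(e * n)) * N :=
      mul_le_mul_of_nonneg_left hN (Real.rpow_pos_of_pos (by norm_num) _).le
    refine le_trans ?_ h1
    rw [Real.rpow_def_of_pos (by norm_num)]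
    have h3 : 4 * Real.exp (-(3 / 2 * (l / 128) * n)) ≤
        Real.exp (Real.log 2 * -(e * n)) * Real.exp (-(5 / 4 * (l / 128) * n)) := by
      rw [← Real.exp_add]
      calc 4 * Real.exp (-(3 / 2 * (l / 128) * n))
          = Real.exp (2 * Real.log 2 + -(3 / 2 * (l / 128) * n)) := by
            rw [Real.exp_add, two_mul, Real.exp_add, Real.exp_log (by norm_num)]
            ring
        _ ≤ _ := by
            apply Real.exp_le_exp.mpr
            have h5 : e * n = l * n / 3200 := by rw [hle]; ring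
            have h6 : Real.log 2 * -(e * n) = -(Real.log 2 * (l * n / 3200)) := by rw [h5]; ring
            rw [h6]
            nlinarith
    have h2n0 : (0 : ℝ) < 2 ^ n := by positivity
    nlinarith
  have hB0 : 0 < B := by rw [hB]; positivity
  have hln0 : (0 : ℝ) ≤ l * n := by positivity
  set X : ℝ := Real.exp (43 / 100 * l * n) with hX
  -- the two products
  have hBE : B * 2 ^ E ≤ 32 / l * X := by
    calc B * 2 ^ E ≤ B * Real.exp (Real.log 2 * (l / 2 * n)) :=
          mul_le_mul_of_nonneg_left h2E hB0.le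
      _ = 32 / l * Real.exp ((7 / 12) * (l / 8) * n + Real.log 2 * (l / 2 * n)) := by
          rw [hB, Real.exp_add]; ring
      _ ≤ 32 / l * X := by
          apply mul_le_mul_of_nonneg_left _ (by positivity)
          apply Real.exp_le_exp.mpr
          nlinarith
  have hBT : B * T ≤ 32 / l * (2 * (8 ^ (p + 1) * p * (32 / l))) * X := by
    calc B * T ≤ B * (2 * (8 ^ (p + 1) * p * B)) := mul_le_mul_of_nonneg_left hT hB0.le
      _ = 32 / l * (2 * (8 ^ (p + 1) * p * (32 / l))) *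
            Real.exp ((7 / 12) * (l / 8) * n + (7 / 12) * (l / 8) * n) := by
          rw [hB, Real.exp_add]; ring
      _ ≤ 32 / l * (2 * (8 ^ (p + 1) * p * (32 / l))) * X := by
          apply mul_le_mul_of_nonneg_left _ (by positivity)
          apply Real.exp_le_exp.mpr
          nlinarith
  have hX0 : 0 < X := Real.exp_pos _
  have hlast : 8 * B * (2 ^ E + T * 2 ^ m) * (3 * s + 1) ≤
      (32 * (32 / l) * (1 + 2 * (8 ^ (p + 1) * p * (32 / l))) + 1) * X * (s * 2 ^ m) := by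
    have e1 : 8 * B * (2 ^ E + T * 2 ^ m) * (3 * s + 1) ≤
        8 * B * (2 ^ E * 2 ^ m + T * 2 ^ m) * (4 * s) := by
      apply mul_le_mul _ (by linarith) (by positivity) (by positivity)
      apply mul_le_mul_of_nonneg_left _ (by positivity)
      have : (2 : ℝ) ^ E ≤ 2 ^ E * 2 ^ m := le_mul_of_one_le_right (by positivity) hm1
      linarith
    have e2 : 8 * B * (2 ^ E * 2 ^ m + T * 2 ^ m) * (4 * s) =
        32 * (B * 2 ^ E + B * T) * (s * 2 ^ m) := by ring
    rw [e2] at e1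
    refine e1.trans ?_
    apply mul_le_mul_of_nonneg_right _ (by positivity)
    calc 32 * (B * 2 ^ E + B * T) ≤
          32 * (32 / l * X + 32 / l * (2 * (8 ^ (p + 1) * p * (32 / l))) * X) := by linarith
      _ = (32 * (32 / l) * (1 + 2 * (8 ^ (p + 1) * p * (32 / l)))) * X := by ring
      _ ≤ (32 * (32 / l) * (1 + 2 * (8 ^ (p + 1) * p * (32 / l))) + 1) * X := by
          apply mul_le_mul_of_nonneg_right _ hX0.le
          linarith
  linarith

/-- the arithmetic for the boxes -/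
theorem Par_b (l : ℝ) (hl0 : 0 < l) (n T p : ℕ) (B : ℝ)
    (hB : B = Real.exp ((7 / 12) * (l / 8) * n) * (32 / l))
    (hT : (T : ℝ) ≤ 2 * (8 ^ (p + 1) * p * B)) :
    8 * (T : ℝ) ^ 5 ≤
      (8 * (2 * (8 ^ (p + 1) * p * (32 / l))) ^ 5 + 1) * Real.exp (43 / 100 * l * n) := by
  have hT3 : (T : ℝ) ^ 5 ≤
      (2 * (8 ^ (p + 1) * p * (32 / l))) ^ 5 * Real.exp (43 / 100 * l * n) := by
    have h1 : (T : ℝ) ^ 5 ≤ (2 * (8 ^ (p + 1) * p * B)) ^ 5 :=
      pow_le_pow_left₀ (by positivity) hT 5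
    refine h1.trans ?_
    have h2 : (2 * (8 ^ (p + 1) * p * B)) ^ 5 = (2 * (8 ^ (p + 1) * (p : ℝ) * (32 / l))) ^ 5 *
        Real.exp ((7 / 12) * (l / 8) * n) ^ 5 := by
      rw [hB]; ring
    rw [h2]
    apply mul_le_mul_of_nonneg_left _ (by positivity)
    rw [← Real.exp_nat_mul]
    apply Real.exp_le_exp.mpr
    push_cast
    have : (0 : ℝ) ≤ l * n := by positivity
    nlinarith
  have h4 : (0 : ℝ) ≤ Real.exp (43 / 100 * l * n) := (Real.exp_pos _).le
  nlinarith

/-- `1 - y ≥ exp (-(6/5) y)` for `y ≤ 1/4` -/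
theorem Par_log {y : ℝ} (h0 : 0 ≤ y) (h1 : y ≤ 1 / 4) :
    Real.exp (-(6 / 5 * y)) ≤ 1 - y := by
  have h2 : 0 < 1 - y := by linarith
  have h3 := Real.quadratic_le_exp_of_nonneg (show (0 : ℝ) ≤ 6 / 5 * y by linarith)
  rw [Real.exp_neg, inv_le_comm₀ (Real.exp_pos _) h2, inv_le_iff_one_le_mul₀ h2]
  have h4 := mul_le_mul_of_nonneg_left h3 h2.le
  have h5 : 0 ≤ y * (1 / 4 - y) := mul_nonneg h0 (by linarith)
  have h6 : 0 ≤ y * (y * (1 / 4 - y)) := mul_nonneg h0 h5
  nlinarith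

/-- the density -/
theorem Par_den (k M n : ℕ) (Δ : ℝ) (hk : 2 ≤ k) (hΔ : 0 ≤ Δ)
    (hM : M = ⌊Δ * n * 2 ^ k⌋₊) :
    Real.exp (-(6 / 5 * Δ * n)) ≤ (1 - (1 / 2 : ℝ) ^ k) ^ M := by
  have hy1 : ((1 : ℝ) / 2) ^ k ≤ 1 / 4 := by
    calc ((1 : ℝ) / 2) ^ k ≤ (1 / 2) ^ 2 := pow_le_pow_of_le_one (by norm_num) (by norm_num) hk
      _ = 1 / 4 := by norm_num
  have hy0 : (0 : ℝ) ≤ (1 / 2) ^ k := by positivity
  have h1 := Par_log hy0 hy1
  have h2 : Real.exp (-(6 / 5 * (1 / 2) ^ k)) ^ M ≤ (1 - (1 / 2) ^ k) ^ M :=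
    pow_le_pow_left₀ (Real.exp_pos _).le h1 M
  refine le_trans ?_ h2
  rw [← Real.exp_nat_mul]
  apply Real.exp_le_exp.2
  have h3 : (M : ℝ) ≤ Δ * n * 2 ^ k := by
    rw [hM]
    exact Nat.floor_le (by positivity)
  have h4 : (M : ℝ) * (1 / 2) ^ k ≤ Δ * n := by
    have h5 := mul_le_mul_of_nonneg_right h3 hy0
    have h6 : Δ * n * 2 ^ k * (1 / 2) ^ k = Δ * n := by
      rw [mul_assoc, ← mul_pow]
      norm_num
    linarith
  nlinarith

end Pool.Agent.STP
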