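import Pool.Agent.STP.Two

/-!
# Planted random formulas of all densities are good
-/

set_option autoImplicit false

namespace Pool.Agent.STP

open Finset Pool.Agent.STH Pool.Agent.STD Pool.Agent.STS

/-- [Pln] -/
theorem thm_Pln (h1 : St_SumL) (h2 : STH.St_Bal) (h3 : St_Bad) (h4 : STD.St_Den)
    (h5 : St_Scl) (h6 : St_Afd) (h7 : St_Tot) (h8 : St_Few) (h9 : St_Ext) : St_Pln := by
  obtain ⟨C, D, hD, h⟩ := thm_Two (thm_Cor h1 h2 h3 h4 h5 h6) h7 h8 h9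
  refine ⟨C, D, hD, fun k hk => ?_⟩
  obtain ⟨n₀, hn₀⟩ := h k hk
  exact ⟨n₀, fun n hn e he M hM => (hn₀ n hn e he M hM).2⟩

end Pool.Agent.STP
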