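import Pool.Agent.STP.Cor

/-!
# Random formulas, uniform and planted, of all densities
-/

set_option autoImplicit false

namespace Pool.Agent.STP

open Finset Pool.Agent.STH Pool.Agent.STD Pool.Agent.STS

/-- [Two] uniform and planted random formulas are good. -/
def St_Two : Prop := ∃ C D : ℝ, 0 < D ∧ ∀ k : ℕ, 2 ≤ k → ∃ n₀ : ℕ, ∀ n : ℕ, n₀ ≤ n →
  ∀ e : ℝ, e = Real.log k ^ 2 / k → ∀ M : ℕ, ⌊D * e * n * 2 ^ k⌋₊ ≤ M →
  2 ^ n * Nat.card {ω : Fm n k M // ¬ Gd (Mod ω) ((2 : ℝ) ^ (C * e * n))} ≤ Nat.card (Fm n k M) ∧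
  ((Nat.card {p : Fm n k M × Pt n // Mod p.1 p.2 ∧ ¬
    ((2 : ℝ) ^ (-(2 * e * n)) * (2 ^ n * (1 - (1 / 2) ^ k) ^ M) ≤
      ((Nat.card {x // Mod p.1 x} : ℕ) : ℝ) ∧
    Gd (Mod p.1) ((2 : ℝ) ^ (C * e * n)) ∧
    (M = ⌊D * e * n * 2 ^ k⌋₊ → Prg p.1 e ((2 : ℝ) ^ (C * e * n))))} : ℕ) : ℝ) ≤
    (2 : ℝ) ^ (-(e * n)) * ((Nat.card {p : Fm n k M × Pt n // Mod p.1 p.2} : ℕ) : ℝ)

theorem Dense_mono {n S : ℕ} {F G : Pt n → Prop} (h : ∀ x, G x → F x) (hF : Dense F S) :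
    Dense G S := by
  classical
  intro W T hT h1 h2
  have h3 := hF W T hT h1 h2
  have h4 : (T.filter G).card ≤ (T.filter F).card :=
    card_le_card (fun x hx => by
      rw [mem_filter] at hx ⊢
      exact ⟨hx.1, h x hx.2⟩)
  refine le_trans ?_ h3
  have h5 : #({x ∈ T | G x}) ≤ #({x ∈ T | F x}) := h4
  omega

theorem ThinCl_mono {n S : ℕ} {F G : Pt n → Prop} (h : ∀ x, G x → F x) (hF : ThinCl F S) :
    ThinCl G S := fun t ht X hX hc => hF t ht X (fun x hx => h x (hX x hx)) hc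

theorem AffDense_mono {n S : ℕ} {F G : Pt n → Prop} (h : ∀ x, G x → F x) (hF : AffDense F S) :
    AffDense G S := by
  classical
  intro X hX h1
  have h3 := hF X hX h1
  have h4 : (X.filter G).card ≤ (X.filter F).card :=
    card_le_card (fun x hx => by
      rw [mem_filter] at hx ⊢
      exact ⟨hx.1, h x hx.2⟩)
  refine le_trans ?_ h3
  have h5 : #({x ∈ X | G x}) ≤ #({x ∈ X | F x}) := h4
  omega

theorem Gd_mono {n : ℕ} {F G : Pt n → Prop} {L : ℝ} (h : ∀ x, G x → F x) (hF : Gd F L) :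
    Gd G L := by
  obtain ⟨S, h1, h2, h3, h4, h5⟩ := hF
  exact ⟨S, h1, h2, Dense_mono h h3, ThinCl_mono h h4, AffDense_mono h h5⟩

/-- failures of two kinds -/
theorem Two_union {α : Type} [Finite α] (m q a b : α → Prop)
    (h : ∀ x, m x → ¬ q x → a x ∨ b x) :
    ((Nat.card {x // m x ∧ ¬ q x} : ℕ) : ℝ) ≤
      ((Nat.card {x // m x ∧ a x} : ℕ) : ℝ) + ((Nat.card {x // m x ∧ b x} : ℕ) : ℝ) := by
  classical
  have := Fintype.ofFinite α
  have h1 : Nat.card {x // m x ∧ ¬ q x} ≤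
      Nat.card {x // m x ∧ a x} + Nat.card {x // m x ∧ b x} := by
    rw [Nat.card_eq_fintype_card, Nat.card_eq_fintype_card, Nat.card_eq_fintype_card,
      Fintype.card_subtype, Fintype.card_subtype, Fintype.card_subtype]
    refine le_trans (card_le_card ?_) (card_union_le _ _)
    intro x hx
    rw [mem_filter] at hx
    rw [mem_union, mem_filter, mem_filter]
    rcases h x hx.2.1 hx.2.2 with h2 | h2
    · exact Or.inl ⟨mem_univ _, hx.2.1, h2⟩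
    · exact Or.inr ⟨mem_univ _, hx.2.1, h2⟩
  exact_mod_cast h1

/-- the number of formulas -/
theorem Two_card (n k M : ℕ) :
    ((Nat.card (Fm n k M) : ℕ) : ℝ) = (2 * (n : ℝ)) ^ (k * M) := by
  have h : Nat.card (Fm n k M) = (2 * n) ^ (k * M) := by
    rw [Nat.card_eq_fintype_card]
    simp only [Fm, Fintype.card_fun, Fintype.card_prod, Fintype.card_fin, Fintype.card_bool]
    rw [← pow_mul, mul_comm n 2]
  rw [h]
  push_cast
  ring

/-- formulas whose first clauses have a property -/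
theorem Two_first (n k M₀ M' : ℕ) (E : Fm n k M₀ → Prop) :
    ((Nat.card {ω : Fm n k (M₀ + M') // E fun i => ω (Fin.castAdd M' i)} : ℕ) : ℝ) =
      ((Nat.card {ω : Fm n k M₀ // E ω} : ℕ) : ℝ) * (2 * (n : ℝ)) ^ (k * M') := by
  have h1 : Nat.card {ω : Fm n k (M₀ + M') // E fun i => ω (Fin.castAdd M' i)} =
      Nat.card ({ω : Fm n k M₀ // E ω} × Fm n k M') := by
    apply Nat.card_congr
    refine ⟨fun ω => (⟨fun i => ω.1 (Fin.castAdd M' i), ω.2⟩, fun i => ω.1 (Fin.natAdd M₀ i)),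
      fun q => ⟨Fin.append q.1.1 q.2, ?_⟩, ?_, ?_⟩
    · have h2 : (fun i => Fin.append q.1.1 q.2 (Fin.castAdd M' i)) = q.1.1 := by
        funext i
        rw [Fin.append_left]
      rw [h2]
      exact q.1.2
    · intro ω
      apply Subtype.ext
      funext i
      refine Fin.addCases (fun i => ?_) (fun i => ?_) i
      · simp only [Fin.append_left]
      · simp only [Fin.append_right]
    · intro q
      apply Prod.ext
      · apply Subtype.ext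
        funext i
        simp only [Fin.append_left]
      · funext i
        simp only [Fin.append_right]
  rw [h1, Nat.card_prod]
  push_cast
  rw [Two_card]

/-- the uniform part -/
theorem Two_unif (n k M₀ M' : ℕ) (E : Fm n k M₀ → Prop) (L : ℝ)
    (hE : ((Nat.card {ω // E ω} : ℕ) : ℝ) ≤ (2 * (n : ℝ)) ^ (k * M₀) * Real.exp (-(n : ℝ)))
    (hG : ∀ ω, ¬ E ω → Gd (Mod ω) L) :
    2 ^ n * Nat.card {ω : Fm n k (M₀ + M') // ¬ Gd (Mod ω) L} ≤
      Nat.card (Fm n k (M₀ + M')) := by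
  have h1 : Nat.card {ω : Fm n k (M₀ + M') // ¬ Gd (Mod ω) L} ≤
      Nat.card {ω : Fm n k (M₀ + M') // E fun i => ω (Fin.castAdd M' i)} := by
    refine Nat.card_le_card_of_injective (fun ω => ⟨ω.1, ?_⟩) ?_
    · by_contra hc
      exact ω.2 (Gd_mono (fun x hx i => hx (Fin.castAdd M' i)) (hG _ hc))
    · intro ω ω' h
      exact Subtype.ext (congrArg Subtype.val h :)
  have h2 : (2 : ℝ) ^ n * Real.exp (-(n : ℝ)) ≤ 1 := by
    rw [Real.exp_neg, ← div_eq_mul_inv, div_le_one (Real.exp_pos _)]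
    have h3 : (2 : ℝ) ≤ Real.exp 1 := by
      have := Real.add_one_le_exp (1 : ℝ)
      linarith
    calc (2 : ℝ) ^ n ≤ Real.exp 1 ^ n := pow_le_pow_left₀ (by norm_num) h3 n
      _ = Real.exp n := by rw [← Real.exp_nat_mul, mul_one]
  have h4 : (2 : ℝ) ^ n * ((Nat.card {ω : Fm n k (M₀ + M') // ¬ Gd (Mod ω) L} : ℕ) : ℝ) ≤
      ((Nat.card (Fm n k (M₀ + M')) : ℕ) : ℝ) := by
    calc (2 : ℝ) ^ n * ((Nat.card {ω : Fm n k (M₀ + M') // ¬ Gd (Mod ω) L} : ℕ) : ℝ)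
        ≤ 2 ^ n * ((Nat.card {ω : Fm n k (M₀ + M') //
            E fun i => ω (Fin.castAdd M' i)} : ℕ) : ℝ) :=
          mul_le_mul_of_nonneg_left (by exact_mod_cast h1) (by positivity)
      _ = 2 ^ n * (((Nat.card {ω // E ω} : ℕ) : ℝ) * (2 * (n : ℝ)) ^ (k * M')) := by
          rw [Two_first]
      _ ≤ 2 ^ n * (((2 * (n : ℝ)) ^ (k * M₀) * Real.exp (-(n : ℝ))) *
            (2 * (n : ℝ)) ^ (k * M')) := by
          apply mul_le_mul_of_nonneg_left _ (by positivity)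
          exact mul_le_mul_of_nonneg_right hE (by positivity)
      _ = (2 ^ n * Real.exp (-(n : ℝ))) * (2 * (n : ℝ)) ^ (k * (M₀ + M')) := by
          rw [mul_add, pow_add]
          ring
      _ ≤ 1 * (2 * (n : ℝ)) ^ (k * (M₀ + M')) :=
          mul_le_mul_of_nonneg_right h2 (by positivity)
      _ = _ := by rw [one_mul, Two_card]
  exact_mod_cast h4

/-- the planted part -/
theorem Two_plant (h7 : St_Tot) (h8 : St_Few) (h9 : St_Ext) (n k M₀ M' : ℕ) (e L : ℝ)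
    (hk : 2 ≤ k) (he0 : 0 < e) (hen : 2 ≤ e * n) (hM₀ : M₀ = ⌊25 * e * n * 2 ^ k⌋₊)
    (E : Fm n k M₀ → Prop)
    (hE : ((Nat.card {ω // E ω} : ℕ) : ℝ) ≤
      (2 * (n : ℝ)) ^ (k * M₀) * (Real.exp (-(30 * e * n)) * ((2 : ℝ) ^ (-(e * n)) / 2)))
    (hG : ∀ ω, ¬ E ω → Gd (Mod ω) L ∧
      ((2 : ℝ) ^ (-(3 / 2 * e * n)) * (2 ^ n * (1 - (1 / 2) ^ k) ^ M₀) ≤
        ((Nat.card {x // Mod ω x} : ℕ) : ℝ) → Prg ω e L)) :
    ((Nat.card {p : Fm n k (M₀ + M') × Pt n // Mod p.1 p.2 ∧ ¬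
      ((2 : ℝ) ^ (-(2 * e * n)) * (2 ^ n * (1 - (1 / 2) ^ k) ^ (M₀ + M')) ≤
        ((Nat.card {x // Mod p.1 x} : ℕ) : ℝ) ∧
      Gd (Mod p.1) L ∧ (M₀ + M' = M₀ → Prg p.1 e L))} : ℕ) : ℝ) ≤
    (2 : ℝ) ^ (-(e * n)) *
      ((Nat.card {p : Fm n k (M₀ + M') × Pt n // Mod p.1 p.2} : ℕ) : ℝ) := by
  have hn0 : (0 : ℝ) ≤ n := by positivity
  have hfew := h8 n k (M₀ + M') ((2 : ℝ) ^ (-(3 / 2 * e * n)))
    (Real.rpow_pos_of_pos (by norm_num) _).le
  have hext := h9 n k M₀ M' E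
  refine (Two_union (α := Fm n k (M₀ + M') × Pt n) (fun p => Mod p.1 p.2) _
    (fun p => ((Nat.card {x // Mod p.1 x} : ℕ) : ℝ) <
      (2 : ℝ) ^ (-(3 / 2 * e * n)) * (2 ^ n * (1 - (1 / 2) ^ k) ^ (M₀ + M')))
    (fun q => E (fun i => q.1 (Fin.castAdd M' i))) ?_).trans ?_
  · rintro ⟨ω, x₀⟩ _ hnot
    by_contra hc
    rw [not_or, not_lt] at hc
    obtain ⟨hω1, hω2⟩ := hc
    apply hnot
    dsimp only at hω1 hω2 ⊢
    obtain ⟨h10, h11⟩ := hG _ hω2
    refine ⟨?_, Gd_mono (fun x hx i => hx (Fin.castAdd M' i)) h10, ?_⟩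
    · refine le_trans ?_ hω1
      have hy1 : ((1 : ℝ) / 2) ^ k ≤ 1 := pow_le_one₀ (by norm_num) (by norm_num)
      have hy2 : (0 : ℝ) ≤ 1 - (1 / 2) ^ k := by linarith
      apply mul_le_mul_of_nonneg_right _ (by positivity)
      apply Real.rpow_le_rpow_of_exponent_le (by norm_num)
      linarith
    · intro hMM
      have hM' : M' = 0 := by omega
      subst hM'
      exact h11 hω1
  · -- the sum of the two fractions
    obtain ⟨Q0, hQ⟩ : ∃ Q0 : ℝ,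
      Q0 = ((Nat.card {p : Fm n k (M₀ + M') × Pt n // Mod p.1 p.2} : ℕ) : ℝ) := ⟨_, rfl⟩
    have hQ0 : 0 ≤ Q0 := by rw [hQ]; positivity
    rw [← hQ] at hfew ⊢
    have hden0 := Par_den k M₀ n (25 * e) hk (by positivity) hM₀
    have hext2 : ((Nat.card {q : Fm n k (M₀ + M') × Pt n // Mod q.1 q.2 ∧
        E fun i => q.1 (Fin.castAdd M' i)} : ℕ) : ℝ) ≤ (2 : ℝ) ^ (-(e * n)) / 2 * Q0 := by
      refine hext.trans ?_
      have hZ0 : (0 : ℝ) ≤ (2 * (n : ℝ)) ^ k - (n : ℝ) ^ k := by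
        have : (n : ℝ) ^ k ≤ (2 * (n : ℝ)) ^ k := pow_le_pow_left₀ (by positivity) (by linarith) k
        linarith
      have hQ2 : Q0 = 2 ^ n * ((2 * (n : ℝ)) ^ k - (n : ℝ) ^ k) ^ (M₀ + M') := by rw [hQ, h7]
      have hZM : ((2 * (n : ℝ)) ^ k - (n : ℝ) ^ k) ^ M₀ =
          (2 * (n : ℝ)) ^ (k * M₀) * (1 - (1 / 2) ^ k) ^ M₀ := by
        rw [pow_mul, ← mul_pow]
        congr 1
        rw [mul_sub, mul_one, ← mul_pow]
        congr 2
        ring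
      have h30 : (2 * (n : ℝ)) ^ (k * M₀) *
          (Real.exp (-(30 * e * n)) * ((2 : ℝ) ^ (-(e * n)) / 2)) ≤
          (2 : ℝ) ^ (-(e * n)) / 2 * ((2 * (n : ℝ)) ^ k - (n : ℝ) ^ k) ^ M₀ := by
        rw [hZM]
        have h31 : Real.exp (-(30 * e * n)) = Real.exp (-(6 / 5 * (25 * e) * n)) := by
          congr 1
          ring
        rw [h31]
        have h33 : (0 : ℝ) ≤ (2 : ℝ) ^ (-(e * n)) / 2 :=
          div_nonneg (Real.rpow_pos_of_pos (by norm_num) _).le (by norm_num)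
        have h32 := mul_le_mul_of_nonneg_left hden0
          (show (0 : ℝ) ≤ (2 * (n : ℝ)) ^ (k * M₀) * ((2 : ℝ) ^ (-(e * n)) / 2) from
            mul_nonneg (by positivity) h33)
        linarith
      have h33 := hE.trans h30
      rw [hQ2, pow_add]
      calc 2 ^ n * ((Nat.card {ω : Fm n k M₀ // E ω} : ℕ) : ℝ) *
            ((2 * (n : ℝ)) ^ k - (n : ℝ) ^ k) ^ M'
          ≤ 2 ^ n * ((2 : ℝ) ^ (-(e * n)) / 2 * ((2 * (n : ℝ)) ^ k - (n : ℝ) ^ k) ^ M₀) *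
            ((2 * (n : ℝ)) ^ k - (n : ℝ) ^ k) ^ M' := by
            apply mul_le_mul_of_nonneg_right _ (by positivity)
            exact mul_le_mul_of_nonneg_left h33 (by positivity)
        _ = _ := by ring
    refine (add_le_add hfew hext2).trans ?_
    rw [← add_mul]
    apply mul_le_mul_of_nonneg_right _ hQ0
    have h40 : (2 : ℝ) ^ (-(3 / 2 * e * n)) ≤ (2 : ℝ) ^ (-(e * n)) / 2 := by
      rw [le_div_iff₀ (by norm_num)]
      calc (2 : ℝ) ^ (-(3 / 2 * e * n)) * 2 = (2 : ℝ) ^ (-(3 / 2 * e * n) + 1) := by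
            rw [Real.rpow_add (by norm_num), Real.rpow_one]
        _ ≤ _ := by
            apply Real.rpow_le_rpow_of_exponent_le (by norm_num)
            linarith
    linarith

/-- [Two] -/
theorem thm_Two (h1 : St_Cor) (h7 : St_Tot) (h8 : St_Few) (h9 : St_Ext) : St_Two := by
  refine ⟨25600, 25, by norm_num, fun k hk => ?_⟩
  have hk0 : (2 : ℝ) ≤ k := by exact_mod_cast hk
  have hk0' : (0 : ℝ) < k := by linarith
  have hlk : 0 < Real.log k := Real.log_pos (by linarith)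
  have he0' : 0 < Real.log k ^ 2 / k := by positivity
  obtain ⟨n₀, hn₀⟩ := h1 k hk
  obtain ⟨n₁, hn₁⟩ := exists_nat_ge (2 / (Real.log k ^ 2 / k))
  refine ⟨n₀ + n₁, fun n hn e he M hM => ?_⟩
  have he0 : 0 < e := by rw [he]; exact he0'
  have hen : 2 ≤ e * n := by
    have h2 : (n₁ : ℝ) ≤ n := by
      have : n₁ ≤ n := by omega
      exact_mod_cast this
    have h3 := hn₁.trans h2
    rw [← he, div_le_iff₀ he0] at h3
    linarith
  obtain ⟨M₀, hM₀⟩ : ∃ M₀ : ℕ, M₀ = ⌊25 * e * n * 2 ^ k⌋₊ := ⟨_, rfl⟩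
  rw [← hM₀] at hM ⊢
  obtain ⟨M', rfl⟩ := Nat.exists_eq_add_of_le hM
  obtain ⟨E, hE1, hE2, hG⟩ := hn₀ n (by omega) e he M₀ hM₀
  exact ⟨Two_unif n k M₀ M' E _ hE1 fun ω hω => (hG ω hω).1,
    Two_plant h7 h8 h9 n k M₀ M' e _ hk he0 hen hM₀ E hE2 hG⟩

end Pool.Agent.STP
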